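import Pool.Agent.H28.MCB.Targets
import Pool.Agent.H1.MCL.TLZ

/-!
Module BZC of the project MCB: the local gap for products of values of the Liouville function at
integer shifts, for almost all `N`.
-/

set_option autoImplicit false

open Finset Filter Topology

namespace Pool.Agent.H39.MCB

open Pool.Agent.H24.MR (lam)
open Pool.Agent.H28.MCL Pool.Agent.H28.MCB
open Pool.Agent.H1.MCL (ws_shift ind_nonneg ind_le_one ind_mono)

/-- the sum over the first `N` integers after a translation -/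
theorem sum_shift (P P' : ℕ → Prop) (A : ℕ) (hP : ∀ n, A ≤ n → P n → P' (n - A)) (N : ℕ) :
    ∑ n ∈ Finset.Icc 1 N, ind P n ≤ A + ∑ n ∈ Finset.Icc 1 N, ind P' n := by
  have hsplit : ∑ n ∈ Finset.Icc 1 N, ind P n =
      ∑ n ∈ (Finset.Icc 1 N).filter (fun n => n ≤ A), ind P n +
      ∑ n ∈ (Finset.Icc 1 N).filter (fun n => ¬ n ≤ A), ind P n :=
    (Finset.sum_filter_add_sum_filter_not _ _ _).symm
  have hfirst : ∑ n ∈ (Finset.Icc 1 N).filter (fun n => n ≤ A), ind P n ≤ A := by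
    have h1 : ∑ n ∈ (Finset.Icc 1 N).filter (fun n => n ≤ A), ind P n ≤
        ∑ n ∈ (Finset.Icc 1 N).filter (fun n => n ≤ A), (1 : ℝ) :=
      Finset.sum_le_sum fun n _ => ind_le_one P n
    have h2 : (((Finset.Icc 1 N).filter (fun n => n ≤ A)).card : ℝ) ≤ A := by
      have h3 : (Finset.Icc 1 N).filter (fun n => n ≤ A) ⊆ Finset.Icc 1 A := by
        intro n hn
        rw [Finset.mem_filter, Finset.mem_Icc] at hn
        rw [Finset.mem_Icc]
        exact ⟨hn.1.1, hn.2⟩
      have h4 := Finset.card_le_card h3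
      rw [Nat.card_Icc] at h4
      have h5 : ((Finset.Icc 1 N).filter (fun n => n ≤ A)).card ≤ A := by omega
      exact_mod_cast h5
    rw [Finset.sum_const, nsmul_eq_mul, mul_one] at h1
    exact le_trans h1 h2
  have hsecond : ∑ n ∈ (Finset.Icc 1 N).filter (fun n => ¬ n ≤ A), ind P n ≤
      ∑ u ∈ Finset.Icc 1 N, ind P' u := by
    have h1 : ∑ n ∈ (Finset.Icc 1 N).filter (fun n => ¬ n ≤ A), ind P n ≤
        ∑ n ∈ (Finset.Icc 1 N).filter (fun n => ¬ n ≤ A), ind P' (n - A) := by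
      apply Finset.sum_le_sum
      intro n hn
      rw [Finset.mem_filter, Finset.mem_Icc] at hn
      exact ind_mono P P' n (n - A) (hP n (not_le.mp hn.2).le)
    refine le_trans h1 ?_
    rw [← Finset.sum_image (s := (Finset.Icc 1 N).filter (fun n => ¬ n ≤ A))
      (g := fun n => n - A) (f := fun u : ℕ => ind P' u)]
    · apply Finset.sum_le_sum_of_subset_of_nonneg
      · intro u hu
        rw [Finset.mem_image] at hu
        obtain ⟨n, hn, rfl⟩ := hu
        rw [Finset.mem_filter, Finset.mem_Icc] at hn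
        rw [Finset.mem_Icc]
        have hnA : A < n := not_le.mp hn.2
        constructor
        · omega
        · omega
      · intro u _ _
        exact ind_nonneg P' u
    · intro n hn m hm hnm
      rw [Finset.mem_coe, Finset.mem_filter] at hn hm
      have h5 : n - A = m - A := hnm
      have h6 : A < n := not_le.mp hn.2
      have h7 : A < m := not_le.mp hm.2
      omega
  rw [hsplit]
  linarith

/-- a property which implies a rare property from `N₀` on is rare -/
theorem bd_of_large (P P' : ℕ → Prop) (N₀ : ℕ) (ρ : ℝ) (hρ : 0 < ρ)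
    (hP : ∀ n, N₀ ≤ n → P n → P' n) (h : Bd (ind P') (ρ / 2)) : Bd (ind P) ρ := by
  obtain ⟨K', hK'⟩ := h
  obtain ⟨K₁, hK₁⟩ := exists_nat_ge (Real.exp (2 * N₀ / ρ))
  refine ⟨max K' K₁, ?_⟩
  intro x y hx hxy
  have hK'x : K' * x ≤ y := le_trans (Nat.mul_le_mul_right x (le_max_left _ _)) hxy
  have hK₁x : K₁ * x ≤ y := le_trans (Nat.mul_le_mul_right x (le_max_right _ _)) hxy
  have hxR : (0 : ℝ) < x := by exact_mod_cast hx
  have hK₁pos : (0 : ℝ) < K₁ := lt_of_lt_of_le (Real.exp_pos _) hK₁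
  have hyx : (K₁ : ℝ) ≤ (y : ℝ) / x := by
    rw [le_div_iff₀ hxR]
    exact_mod_cast hK₁x
  have hyxpos : (0 : ℝ) < (y : ℝ) / x := lt_of_lt_of_le hK₁pos hyx
  have hlog : 2 * N₀ / ρ ≤ Real.log ((y : ℝ) / x) := by
    rw [Real.le_log_iff_exp_le hyxpos]
    exact le_trans hK₁ hyx
  have hmain := hK' x y hx hK'x
  have hN₀ : (N₀ : ℝ) ≤ ρ / 2 * Real.log ((y : ℝ) / x) := by
    have h1 := mul_le_mul_of_nonneg_left hlog (by linarith : (0 : ℝ) ≤ ρ / 2)
    have h2 : ρ / 2 * (2 * N₀ / ρ) = N₀ := by field_simp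
    rwa [h2] at h1
  have hsplit : ∑ n ∈ Finset.Icc x y, ind P n / n =
      ∑ n ∈ (Finset.Icc x y).filter (fun n => n < N₀), ind P n / n +
      ∑ n ∈ (Finset.Icc x y).filter (fun n => ¬ n < N₀), ind P n / n :=
    (Finset.sum_filter_add_sum_filter_not _ _ _).symm
  have hfirst : ∑ n ∈ (Finset.Icc x y).filter (fun n => n < N₀), ind P n / n ≤ N₀ := by
    have h1 : ∑ n ∈ (Finset.Icc x y).filter (fun n => n < N₀), ind P n / n ≤
        ∑ n ∈ (Finset.Icc x y).filter (fun n => n < N₀), (1 : ℝ) := by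
      apply Finset.sum_le_sum
      intro n hn
      rw [Finset.mem_filter, Finset.mem_Icc] at hn
      have hn1 : (1 : ℝ) ≤ n := by
        exact_mod_cast le_trans hx hn.1.1
      rw [div_le_one (by linarith)]
      exact le_trans (ind_le_one P n) hn1
    have h2 : (((Finset.Icc x y).filter (fun n => n < N₀)).card : ℝ) ≤ N₀ := by
      have h3 : (Finset.Icc x y).filter (fun n => n < N₀) ⊆ Finset.range N₀ := by
        intro n hn
        rw [Finset.mem_filter, Finset.mem_Icc] at hn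
        rw [Finset.mem_range]
        exact hn.2
      have h4 := Finset.card_le_card h3
      rw [Finset.card_range] at h4
      exact_mod_cast h4
    rw [Finset.sum_const, nsmul_eq_mul, mul_one] at h1
    exact le_trans h1 h2
  have hsecond : ∑ n ∈ (Finset.Icc x y).filter (fun n => ¬ n < N₀), ind P n / n ≤
      ∑ n ∈ Finset.Icc x y, ind P' n / n := by
    have h1 : ∑ n ∈ (Finset.Icc x y).filter (fun n => ¬ n < N₀), ind P n / n ≤
        ∑ n ∈ (Finset.Icc x y).filter (fun n => ¬ n < N₀), ind P' n / n := by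
      apply Finset.sum_le_sum
      intro n hn
      rw [Finset.mem_filter] at hn
      exact div_le_div_of_nonneg_right (ind_mono P P' n n (hP n (not_lt.mp hn.2)))
        (Nat.cast_nonneg n)
    refine le_trans h1 ?_
    apply Finset.sum_le_sum_of_subset_of_nonneg (Finset.filter_subset _ _)
    intro n _ _
    exact div_nonneg (ind_nonneg P' n) (Nat.cast_nonneg n)
  rw [hsplit]
  linarith

theorem bzc : T_BZC := by
  intro δ κ ρ S Q c hδ hκ hκ1 hρ hS hQ H
  obtain ⟨a, ha⟩ : ∃ a : ℕ, a = ∑ s ∈ S, s.natAbs + 1 := ⟨_, rfl⟩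
  have hsa : ∀ s ∈ S, s.natAbs < Q * a := by
    intro s hs
    have h1 : s.natAbs ≤ ∑ s ∈ S, s.natAbs :=
      Finset.single_le_sum (f := fun s : ℤ => s.natAbs) (fun _ _ => Nat.zero_le _) hs
    have h2 : 1 * a ≤ Q * a := Nat.mul_le_mul_right a hQ
    omega
  obtain ⟨e⟩ : Nonempty (Fin S.card ≃ S) := ⟨S.equivFin.symm⟩
  obtain ⟨β, hβ⟩ : ∃ β : Fin S.card → ℕ, ∀ i, β i = ((e i : ℤ) + (Q * a : ℕ)).toNat :=
    ⟨_, fun _ => rfl⟩
  have hβZ : ∀ i, (β i : ℤ) = (e i : ℤ) + (Q * a : ℕ) := by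
    intro i
    rw [hβ i]
    apply Int.toNat_of_nonneg
    have := hsa (e i) (e i).2
    omega
  have hinj : Function.Injective β := by
    intro i j hij
    have h1 : (β i : ℤ) = β j := by rw [hij]
    rw [hβZ, hβZ] at h1
    have h2 : (e i : ℤ) = (e j : ℤ) := by linarith
    exact e.injective (Subtype.ext h2)
  obtain ⟨h₀, hh₀⟩ := H S.card β (Finset.card_pos.mpr hS) hinj
  refine ⟨h₀, ?_⟩
  intro h hh
  have hf : ∀ u : ℕ, gs S (u + Q * a) = (fun y : ℕ => ∏ i, lam (y + β i)) u := by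
    intro u
    show ∏ s ∈ S, lam (((u + Q * a : ℕ) : ℤ) + s).toNat = ∏ i, lam (u + β i)
    rw [← Finset.prod_coe_sort S (fun s : ℤ => lam (((u + Q * a : ℕ) : ℤ) + s).toNat)]
    rw [← e.prod_comp]
    apply Finset.prod_congr rfl
    intro i _
    congr 1
    have h1 := hβZ i
    have h2 : ((u + β i : ℕ) : ℤ) = ((u + Q * a : ℕ) : ℤ) + (e i : ℤ) := by
      push_cast at h1 ⊢
      linarith
    rw [← h2]
    exact Int.toNat_natCast _
  have hbad : ∀ n, Q * a ≤ n → Bad (gs S) κ Q c h n →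
      Bad (fun y => ∏ i, lam (y + β i)) κ Q c h (n - Q * a) := by
    intro n hn hb
    unfold Bad at hb ⊢
    rw [ws_shift S _ Q a c n h hf hn] at hb
    exact hb
  obtain ⟨N₀, hN₀⟩ := exists_nat_ge (2 * (Q * a : ℕ) / δ)
  refine bd_of_large _ _ N₀ ρ hρ ?_ (hh₀ h hh)
  intro N hN hlt
  have h1 := sum_shift _ _ (Q * a) hbad N
  have h2 : 2 * ((Q * a : ℕ) : ℝ) ≤ δ * N := by
    have h3 : (N₀ : ℝ) ≤ N := by exact_mod_cast hN
    have h4 := hN₀.trans h3
    rw [div_le_iff₀ hδ] at h4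
    linarith
  have h5 : δ * N < ∑ n ∈ Finset.Icc 1 N, ind (Bad (gs S) κ Q c h) n := hlt
  show δ / 2 * N < ∑ n ∈ Finset.Icc 1 N, ind (Bad (fun y => ∏ i, lam (y + β i)) κ Q c h) n
  linarith

end Pool.Agent.H39.MCB
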